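import Pool.Agent.Lib.MP_841f14_al.Defs
import Pool.Agent.Lib.MP_841f14_al.Comm

/-!
Basic commutators of weight `8` in a group generated by `a, b` with `[b,a,a] = 1`:
only five of them can survive.
-/

namespace Pool.Agent.Lib.Sims

open Pool.Agent.Lib.MP_841f14_al

/-- `[x,y] = x⁻¹ y⁻¹ x y`. -/
def cm {G : Type*} [Group G] (x y : G) : G := x⁻¹ * y⁻¹ * x * y

theorem ev_mul' {X G : Type*} [Group G] (g : X → G) (c d : FreeMagma X) :
    ev g (c * d) = cm (ev g c) (ev g d) := rfl

theorem len_mul' {X : Type*} (c d : FreeMagma X) : (c * d).length = c.length + d.length := rfl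

theorem len_pos' {X : Type*} (c : FreeMagma X) : 0 < c.length := by
  induction c with
  | ih1 x => exact Nat.one_pos
  | ih2 a b ha hb => rw [len_mul']; omega

theorem map_len' {X Y : Type*} (f : X → Y) (a : FreeMagma X) :
    (FreeMagma.map f a).length = a.length := by
  induction a with
  | ih1 x => rfl
  | ih2 a b ha hb => rw [map_mul, len_mul', len_mul', ha, hb]

theorem ev_map' {X Y G : Type*} [Group G] (f : X → Y) (g : Y → G) (a : FreeMagma X) :
    ev g (FreeMagma.map f a) = ev (fun x => g (f x)) a := by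
  induction a with
  | ih1 x => rfl
  | ih2 a b ha hb => rw [map_mul, ev_mul', ev_mul', ha, hb]

theorem hom_ev {X G G' : Type*} [Group G] [Group G'] (φ : G →* G') (g : X → G)
    (a : FreeMagma X) : φ (ev g a) = ev (fun x => φ (g x)) a := by
  induction a with
  | ih1 x => rfl
  | ih2 a b ha hb => rw [ev_mul', ev_mul', ← ha, ← hb]; simp [cm]

theorem ev_mem_lcs {X G : Type*} [Group G] (g : X → G) (a : FreeMagma X) :
    ev g a ∈ (⊤ : Subgroup G).lowerCentralSeries (a.length - 1) := by
  induction a with
  | ih1 x => exact Subgroup.mem_top _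
  | ih2 a b ha hb =>
    have h1 := len_pos' a
    have h2 := len_pos' b
    have h := lcs_commutator (⊤ : Subgroup G) (b.length - 1) (a.length - 1)
      (Subgroup.commutator_mem_commutator (inv_mem ha) (inv_mem hb))
    rw [len_mul', show a.length + b.length - 1 = a.length - 1 + (b.length - 1) + 1 by omega]
    simpa [ev_mul', cm, commutatorElement_def] using h

def tA : FreeMagma Bool := .of false
def tB : FreeMagma Bool := .of true
def tU : FreeMagma Bool := tB * tA
def tQ : FreeMagma Bool := tU * tB
def tS : FreeMagma Bool := tQ * tB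
def tT : FreeMagma Bool := tS * tB
def tV : FreeMagma Bool := tT * tB
def tW : FreeMagma Bool := tV * tB

/-- The basic commutators of weight at most `8` that do not contain `[b,a,a]`. -/
def surv : List (FreeMagma Bool) :=
  [tA, tB, tU, tQ, tS, tT, tQ * tU, tV, tS * tU, tW, tT * tU, tQ * tU * tU, tS * tQ,
    tW * tB, tV * tU, tS * tU * tU, tT * tQ, tQ * tU * tQ]

def rgt : FreeMagma Bool → FreeMagma Bool → Bool
  | .of _, _ => true
  | .mul _ c₂, d => decide (c₂.length ≤ d.length) && !(decide (c₂ = tB) && decide (d = tA))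

def step (c d : FreeMagma Bool) : Bool :=
  decide (d.length ≤ c.length) && decide (c ≠ d) && !(decide (c = tA) && decide (d = tB)) && rgt c d

theorem surv_closed : ∀ c ∈ surv, ∀ d ∈ surv, step c d = true → c.length + d.length ≤ 8 →
    c * d ∈ surv ∨ c * d = tU * tA := by decide

theorem surv_eight : ∀ c ∈ surv, c.length = 8 →
    c = tW * tB ∨ c = tV * tU ∨ c = tS * tU * tU ∨ c = tT * tQ ∨ c = tQ * tU * tQ := by decide

section classify

variable {X : Type*} {lt : FreeMagma X → FreeMagma X → Prop}

theorem lt_asymm' (hlt : IsHallOrder lt) {c d : FreeMagma X} (hc : IsBasic lt c)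
    (hd : IsBasic lt d) (h : lt c d) : ¬ lt d c := fun h' =>
  hlt.irrefl c hc (hlt.trans c d c hc hd hc h h')

theorem lt_len (hlt : IsHallOrder lt) {c d : FreeMagma X} (hc : IsBasic lt c)
    (hd : IsBasic lt d) (h : lt c d) : c.length ≤ d.length := by
  by_contra hh
  exact lt_asymm' hlt hc hd h (hlt.weight d c hd hc (by omega))

theorem basic_right {c d : FreeMagma X} (h : IsBasic lt (c * d)) : IsBasic lt d := by
  generalize he : c * d = e at h
  cases h with
  | of x => cases he
  | mul c' d' _ hd _ _ =>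
    have he' : FreeMagma.mul c d = FreeMagma.mul c' d' := he
    injection he' with h1 h2
    rw [h2]; exact hd

/-- the two chosen letters -/
def two (x y : X) : Bool → X := fun s => if s then y else x

theorem classify (hlt : IsHallOrder lt) {x y : X} (hxy : lt (.of x) (.of y))
    {G : Type*} [Group G] (g : X → G) (hg : ∀ z, z ≠ x → z ≠ y → g z = 1)
    (hk : cm (cm (g y) (g x)) (g x) = 1) {c : FreeMagma X} (hc : IsBasic lt c)
    (h8 : c.length ≤ 8) : ev g c = 1 ∨ ∃ c' ∈ surv, c = FreeMagma.map (two x y) c' := by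
  have hA : FreeMagma.map (two x y) tA = .of x := rfl
  have hB : FreeMagma.map (two x y) tB = .of y := rfl
  have hyx : ¬ lt (.of y) (.of x) := lt_asymm' hlt (.of x) (.of y) hxy
  induction hc with
  | of z =>
    by_cases h1 : z = x
    · exact Or.inr ⟨tA, by decide, by rw [h1, hA]⟩
    by_cases h2 : z = y
    · exact Or.inr ⟨tB, by decide, by rw [h2, hB]⟩
    exact Or.inl (hg z h1 h2)
  | mul c d hc hd hdc hr ihc ihd =>
    rw [len_mul'] at h8
    rcases ihc (by omega) with h | ⟨c', hc', rfl⟩
    · left; rw [ev_mul', h]; simp [cm]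
    rcases ihd (by omega) with h | ⟨d', hd', rfl⟩
    · left; rw [ev_mul', h]; simp [cm]
    have hl := lt_len hlt hd hc hdc
    rw [map_len', map_len'] at hl h8
    have hst : step c' d' = true := by
      have e1 : c' ≠ d' := by
        rintro rfl
        exact hlt.irrefl _ hc hdc
      have e2 : ¬ (c' = tA ∧ d' = tB) := by
        rintro ⟨rfl, rfl⟩
        exact hyx hdc
      have e3 : rgt c' d' = true := by
        rcases c' with s | ⟨c₁, c₂⟩
        · rfl
        · have hb : IsBasic lt (FreeMagma.map (two x y) c₂) := basic_right (c := FreeMagma.map (two x y) c₁) hc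
          have h := hr (FreeMagma.map (two x y) c₁) (FreeMagma.map (two x y) c₂) rfl
          have f1 : c₂.length ≤ d'.length := by
            rcases h with h | h
            · rw [← map_len' (two x y) c₂, h, map_len']
            · have := lt_len hlt hb hd h
              rwa [map_len', map_len'] at this
          have f2 : ¬ (c₂ = tB ∧ d' = tA) := by
            rintro ⟨rfl, rfl⟩
            rw [hA, hB] at h
            rcases h with h | h
            · rw [h] at hxy
              exact hlt.irrefl _ (.of x) hxy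
            · exact hyx h
          simp only [rgt, Bool.and_eq_true, decide_eq_true_eq, Bool.not_eq_true',
            Bool.and_eq_false_iff, decide_eq_false_iff_not]
          exact ⟨f1, by tauto⟩
      simp only [step, Bool.and_eq_true, decide_eq_true_eq, Bool.not_eq_true',
        Bool.and_eq_false_iff, decide_eq_false_iff_not]
      exact ⟨⟨⟨hl, e1⟩, by tauto⟩, e3⟩
    rcases surv_closed c' hc' d' hd' hst h8 with h | h
    · exact Or.inr ⟨c' * d', h, by rw [map_mul]⟩
    · left
      rw [← map_mul, h]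
      exact hk

end classify

section group

variable {H : Type*} [Group H]

theorem cm_eq_one {x y : H} : cm x y = 1 ↔ x * y = y * x := by
  constructor
  · intro h
    calc x * y = y * x * cm x y := by simp [cm, mul_assoc]
      _ = y * x := by rw [h, mul_one]
  · intro h
    simp only [cm, mul_assoc]
    rw [h]; simp

/-- with `a² = 1` and `[a, a^b] = 1`: `[b,a,a] = 1` and `u = [b,a]` inverts `q = [u,b]`. -/
theorem base_facts {a b : H} (ha : a * a = 1) (hc : cm a (b⁻¹ * a * b) = 1) :
    cm (cm b a) a = 1 ∧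
      (cm b a)⁻¹ * cm (cm b a) b * cm b a = (cm (cm b a) b)⁻¹ := by
  have hi : a⁻¹ = a := inv_eq_of_mul_eq_one_right ha
  obtain ⟨c, hcd⟩ : ∃ c, c = b⁻¹ * a * b := ⟨_, rfl⟩
  obtain ⟨d, hdd⟩ : ∃ d, d = b⁻¹ * c * b := ⟨_, rfl⟩
  have h01 : a * c = c * a := by rw [hcd]; exact cm_eq_one.1 hc
  have hc2 : c * c = 1 := by
    rw [hcd]
    calc b⁻¹ * a * b * (b⁻¹ * a * b) = b⁻¹ * (a * a) * b := by group
      _ = 1 := by rw [ha]; group
  have hd2 : d * d = 1 := by
    rw [hdd]
    calc b⁻¹ * c * b * (b⁻¹ * c * b) = b⁻¹ * (c * c) * b := by group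
      _ = 1 := by rw [hc2]; group
  have h12 : c * d = d * c := by
    calc c * d = b⁻¹ * (a * c) * b := by rw [hdd]; nth_rewrite 1 [hcd]; group
      _ = d * c := by rw [h01, hdd]; nth_rewrite 3 [hcd]; group
  have hci : c⁻¹ = c := inv_eq_of_mul_eq_one_right hc2
  have hdi : d⁻¹ = d := inv_eq_of_mul_eq_one_right hd2
  have hu : cm b a = c * a := by rw [cm, hi, hcd]
  have hq : cm (c * a) b = a * d := by
    calc cm (c * a) b = a⁻¹ * c⁻¹ * ((b⁻¹ * c * b) * (b⁻¹ * a * b)) := by rw [cm]; group
      _ = a * (c * (d * c)) := by rw [← hdd, ← hcd, hi, hci]; group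
      _ = a * d := by rw [← h12, ← mul_assoc c, hc2, one_mul]
  rw [hu, hq]
  constructor
  · rw [cm_eq_one, ← mul_assoc, h01]
  · rw [mul_inv_rev, mul_inv_rev, hi, hci, hdi]
    calc a * c * (a * d) * (c * a) = (a * c * a) * (d * c) * a := by group
      _ = (c * (a * a)) * (c * d) * a := by rw [h01, h12]; group
      _ = (c * c) * d * a := by rw [ha]; group
      _ = d * a := by rw [hc2, one_mul]

theorem inv_facts {u q : H} (h : u⁻¹ * q * u = q⁻¹) :
    cm (cm q u) q = 1 ∧ cm (cm (cm q u) u) u = (q ^ 8)⁻¹ := by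
  have hz : ∀ k : ℤ, cm (q ^ k) u = q ^ (-2 * k) := by
    intro k
    have : u⁻¹ * q ^ k * u = q ^ (-k) := by
      have h2 : (u⁻¹ * q * u⁻¹⁻¹) ^ k = u⁻¹ * q ^ k * u⁻¹⁻¹ := conj_zpow
      rw [inv_inv, h] at h2
      rw [← h2, inv_zpow']
    calc cm (q ^ k) u = q ^ (-k) * (u⁻¹ * q ^ k * u) := by rw [cm]; group
      _ = q ^ (-2 * k) := by rw [this]; group
  have h1 : cm q u = q ^ (-2 : ℤ) := by simpa using hz 1
  constructor
  · rw [h1, cm]; group
  · rw [h1, hz, hz]; group

end group

/-- The normal closure of the basic commutators of weight `n`. -/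
def NB {X : Type*} (lt : FreeMagma X → FreeMagma X → Prop) (n : ℕ) : Subgroup (FreeGroup X) :=
  Subgroup.normalClosure
    {w | ∃ t : FreeMagma X, IsBasic lt t ∧ t.length = n ∧ ev FreeGroup.of t = w}

theorem NB_le {X : Type*} (lt : FreeMagma X → FreeMagma X → Prop) (n : ℕ) :
    NB lt n ≤ (⊤ : Subgroup (FreeGroup X)).lowerCentralSeries (n - 1) := by
  apply Subgroup.normalClosure_le_normal
  rintro w ⟨t, -, rfl, rfl⟩
  exact ev_mem_lcs _ t

theorem exists_hall (X : Type*) : ∃ lt : FreeMagma X → FreeMagma X → Prop, IsHallOrder lt := by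
  refine ⟨fun a b => a.length < b.length ∨ (a.length = b.length ∧ WellOrderingRel a b), ?_⟩
  constructor
  · rintro a - (h | ⟨-, h⟩)
    · omega
    · exact irrefl_of WellOrderingRel a h
  · rintro a b c - - - (h | ⟨h, h'⟩) (k | ⟨k, k'⟩)
    · left; omega
    · left; omega
    · left; omega
    · exact Or.inr ⟨h.trans k, trans_of WellOrderingRel h' k'⟩
  · intro a b _ _
    rcases lt_trichotomy a.length b.length with h | h | h
    · exact Or.inr (Or.inl (Or.inl h))
    · rcases trichotomous_of WellOrderingRel a b with k | k | k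
      · exact Or.inr (Or.inl (Or.inr ⟨h, k⟩))
      · exact Or.inl k
      · exact Or.inr (Or.inr (Or.inr ⟨h.symm, k⟩))
    · exact Or.inr (Or.inr (Or.inl h))
  · intro a b _ _ h
    exact Or.inl h

/-- The bridge: a group with `a² = [a,a^b] = 1` and four relators in which `[b,a,b]^8 ≠ 1`
separates `N_8` from `γ_8` in every free group of rank at least two, for every Hall order. -/
theorem bridge {H : Type*} [Group H] (a b : H) (ha : a * a = 1) (hc : cm a (b⁻¹ * a * b) = 1)
    (h1 : ev (two a b) (tT * tQ) = 1) (h2 : ev (two a b) (tS * tU * tU) = 1)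
    (h3 : ev (two a b) (tV * tU) = 1) (h4 : ev (two a b) (tW * tB) = 1)
    (hq : ev (two a b) tQ ^ 8 ≠ 1)
    {X : Type*} [Nontrivial X] (lt : FreeMagma X → FreeMagma X → Prop) (hlt : IsHallOrder lt) :
    NB lt 8 < (⊤ : Subgroup (FreeGroup X)).lowerCentralSeries (8 - 1) := by
  classical
  obtain ⟨x, y, hxy⟩ : ∃ x y : X, lt (.of x) (.of y) := by
    obtain ⟨x, y, hne⟩ := exists_pair_ne X
    rcases hlt.total (.of x) (.of y) (.of x) (.of y) with h | h | h
    · injection h with h; exact absurd h hne
    · exact ⟨x, y, h⟩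
    · exact ⟨y, x, h⟩
  have hne : y ≠ x := by
    rintro rfl
    exact hlt.irrefl _ (.of y) hxy
  let g : X → H := fun z => if z = x then a else if z = y then b else 1
  have gx : g x = a := by simp [g]
  have gy : g y = b := by simp [g, hne]
  have hg : ∀ z, z ≠ x → z ≠ y → g z = 1 := by intro z h h'; simp [g, h, h']
  have htwo : (fun s => g (two x y s)) = two a b := by
    funext s; cases s
    · exact gx
    · exact gy
  obtain ⟨f1, f2⟩ := base_facts ha hc
  obtain ⟨f3, f4⟩ := inv_facts f2
  have hφ : ∀ t : FreeMagma X, FreeGroup.lift g (ev FreeGroup.of t) = ev g t := by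
    intro t; rw [hom_ev]; simp
  have hN : NB lt 8 ≤ (FreeGroup.lift g).ker := by
    apply Subgroup.normalClosure_le_normal
    rintro w ⟨t, ht, hl, rfl⟩
    show FreeGroup.lift g (ev FreeGroup.of t) = 1
    rw [hφ]
    rcases classify hlt hxy g hg (by rw [gx, gy]; exact f1) ht hl.le with h | ⟨c, hcs, rfl⟩
    · exact h
    rw [map_len'] at hl
    rw [ev_map', htwo]
    rcases surv_eight c hcs hl with rfl | rfl | rfl | rfl | rfl
    · exact h4
    · exact h3
    · exact h2
    · exact h1
    · exact f3
  refine lt_of_le_of_ne (NB_le lt 8) fun he => hq ?_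
  have hm := ev_mem_lcs (FreeGroup.of : X → FreeGroup X)
    (FreeMagma.map (two x y) (tQ * tU * tU * tU))
  rw [map_len'] at hm
  have hm' := Subgroup.lowerCentralSeries_antitone (⊤ : Subgroup (FreeGroup X))
    (show 8 - 1 ≤ (tQ * tU * tU * tU).length - 1 by decide) hm
  rw [← he] at hm'
  have h0 : FreeGroup.lift g (ev FreeGroup.of (FreeMagma.map (two x y) (tQ * tU * tU * tU))) = 1 :=
    hN hm'
  rw [hφ, ev_map', htwo] at h0
  have h5 : (ev (two a b) tQ ^ 8)⁻¹ = 1 := f4.symm.trans h0
  exact inv_eq_one.1 h5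

end Pool.Agent.Lib.Sims
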