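import Pool.Agent.Lib.Sims.Cover

/-!
General form of the bridge: only `[b,a,a] = 1` and the five surviving commutators of weight `8`.
-/

namespace Pool.Agent.Lib.Sims

open Pool.Agent.Lib.MP_841f14_al

theorem baa_of_comm {H : Type*} [Group H] {a b : H} (hc : cm a (b⁻¹ * a * b) = 1) :
    cm (cm b a) a = 1 := by
  have h := cm_eq_one.1 hc
  have h2 : Commute a (b⁻¹ * a * b) := h
  have h3 : cm b a = (b⁻¹ * a * b)⁻¹ * a := by rw [cm]; group
  rw [cm_eq_one, h3]
  exact (h2.inv_right.mul_right (Commute.refl a)).symm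

/-- A group generated by `a, b` in which `[b,a,a]` and the five commutators die while `γ_8` does
not. -/
theorem bridge_gen {H : Type*} [Group H] (a b : H) (hk : cm (cm b a) a = 1)
    (h1 : ev (two a b) (tT * tQ) = 1) (h2 : ev (two a b) (tS * tU * tU) = 1)
    (h3 : ev (two a b) (tV * tU) = 1) (h4 : ev (two a b) (tW * tB) = 1)
    (h5 : ev (two a b) (tQ * tU * tQ) = 1)
    (z : FreeGroup Bool) (hz : z ∈ (⊤ : Subgroup (FreeGroup Bool)).lowerCentralSeries 7)
    (hq : FreeGroup.lift (two a b) z ≠ 1)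
    {X : Type*} [Nontrivial X] (lt : FreeMagma X → FreeMagma X → Prop) (hlt : IsHallOrder lt) :
    NB lt 8 < (⊤ : Subgroup (FreeGroup X)).lowerCentralSeries (8 - 1) := by
  classical
  obtain ⟨x, y, hxy⟩ : ∃ x y : X, lt (.of x) (.of y) := by
    obtain ⟨x, y, hne⟩ := exists_pair_ne X
    rcases hlt.total (.of x) (.of y) (.of x) (.of y) with h | h | h
    · injection h with h; exact absurd h hne
    · exact ⟨x, y, h⟩
    · exact ⟨y, x, h⟩
  have hne : y ≠ x := by
    rintro rfl
    exact hlt.irrefl _ (.of y) hxy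
  let g : X → H := fun z => if z = x then a else if z = y then b else 1
  have gx : g x = a := by simp [g]
  have gy : g y = b := by simp [g, hne]
  have hg : ∀ z, z ≠ x → z ≠ y → g z = 1 := by intro z h h'; simp [g, h, h']
  have htwo : (fun s => g (two x y s)) = two a b := by
    funext s; cases s
    · exact gx
    · exact gy
  have hφ : ∀ t : FreeMagma X, FreeGroup.lift g (ev FreeGroup.of t) = ev g t := by
    intro t; rw [hom_ev]; simp
  have hN : NB lt 8 ≤ (FreeGroup.lift g).ker := by
    apply Subgroup.normalClosure_le_normal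
    rintro w ⟨t, ht, hl, rfl⟩
    show FreeGroup.lift g (ev FreeGroup.of t) = 1
    rw [hφ]
    rcases classify hlt hxy g hg (by rw [gx, gy]; exact hk) ht hl.le with h | ⟨c, hcs, rfl⟩
    · exact h
    rw [map_len'] at hl
    rw [ev_map', htwo]
    rcases surv_eight c hcs hl with rfl | rfl | rfl | rfl | rfl
    · exact h4
    · exact h3
    · exact h2
    · exact h1
    · exact h5
  refine lt_of_le_of_ne (NB_le lt 8) fun he => hq ?_
  have hm : FreeGroup.map (two x y) z ∈ (⊤ : Subgroup (FreeGroup X)).lowerCentralSeries 7 := by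
    have h6 := Subgroup.mem_map_of_mem (FreeGroup.map (two x y)) hz
    rw [Subgroup.map_lowerCentralSeries] at h6
    exact Subgroup.lowerCentralSeries_mono _ le_top h6
  have hm' : FreeGroup.map (two x y) z ∈ NB lt 8 := by rw [he]; exact hm
  have h0 : FreeGroup.lift g (FreeGroup.map (two x y) z) = 1 := hN hm'
  have h7 : (FreeGroup.lift g).comp (FreeGroup.map (two x y)) = FreeGroup.lift (two a b) := by
    ext s
    simpa using congrFun htwo s
  rw [← h7]; exact h0

/-- the witness is a formal commutator of weight at least `8` -/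
theorem bridge_tree {H : Type*} [Group H] (a b : H) (hk : cm (cm b a) a = 1)
    (h1 : ev (two a b) (tT * tQ) = 1) (h2 : ev (two a b) (tS * tU * tU) = 1)
    (h3 : ev (two a b) (tV * tU) = 1) (h4 : ev (two a b) (tW * tB) = 1)
    (h5 : ev (two a b) (tQ * tU * tQ) = 1)
    (t : FreeMagma Bool) (ht : 8 ≤ t.length) (hq : ev (two a b) t ≠ 1)
    {X : Type*} [Nontrivial X] (lt : FreeMagma X → FreeMagma X → Prop) (hlt : IsHallOrder lt) :
    NB lt 8 < (⊤ : Subgroup (FreeGroup X)).lowerCentralSeries (8 - 1) := by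
  refine bridge_gen a b hk h1 h2 h3 h4 h5 (ev FreeGroup.of t) ?_ ?_ lt hlt
  · exact Subgroup.lowerCentralSeries_antitone _ (by omega) (ev_mem_lcs FreeGroup.of t)
  · rw [hom_ev]; simpa using hq

/-- the witness lies in `γ_8` of a group generated by `a` and `b` -/
theorem bridge_top {H : Type*} [Group H] (a b : H) (hgen : Subgroup.closure {a, b} = ⊤)
    (hk : cm (cm b a) a = 1)
    (h1 : ev (two a b) (tT * tQ) = 1) (h2 : ev (two a b) (tS * tU * tU) = 1)
    (h3 : ev (two a b) (tV * tU) = 1) (h4 : ev (two a b) (tW * tB) = 1)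
    (h5 : ev (two a b) (tQ * tU * tQ) = 1)
    (z : H) (hz : z ∈ (⊤ : Subgroup H).lowerCentralSeries 7) (hq : z ≠ 1)
    {X : Type*} [Nontrivial X] (lt : FreeMagma X → FreeMagma X → Prop) (hlt : IsHallOrder lt) :
    NB lt 8 < (⊤ : Subgroup (FreeGroup X)).lowerCentralSeries (8 - 1) := by
  have hr : (⊤ : Subgroup (FreeGroup Bool)).map (FreeGroup.lift (two a b)) = ⊤ := by
    rw [eq_top_iff, ← hgen, Subgroup.closure_le]
    rintro x (rfl | rfl)
    · exact ⟨FreeGroup.of false, trivial, by simp [two]⟩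
    · exact ⟨FreeGroup.of true, trivial, by simp [two]⟩
  rw [← hr, ← Subgroup.map_lowerCentralSeries] at hz
  obtain ⟨w, hw, rfl⟩ := hz
  exact bridge_gen a b hk h1 h2 h3 h4 h5 w hw hq lt hlt

end Pool.Agent.Lib.Sims
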