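import Pool.Agent.Lib.Sims.Bridge

/-!
Passage from the two-generator group to a finite cover: the letters `a, b` act on pairs
(point of `D`, element of a quotient of the free group on the edges).
-/

namespace Pool.Agent.Lib.Sims

open Pool.Agent.Lib.MP_841f14_al FreeGroup

/-- the word of a formal commutator -/
def wd {X : Type*} : FreeMagma X → List (X × Bool)
  | .of s => [(s, true)]
  | .mul c d => invRev (wd c) ++ invRev (wd d) ++ wd c ++ wd d

theorem mk_wd {X : Type*} (t : FreeMagma X) : mk (wd t) = ev FreeGroup.of t := by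
  induction t with
  | ih1 x => rfl
  | ih2 c d hc hd =>
    rw [ev_mul', cm, ← hc, ← hd, inv_mk, inv_mk, mul_mk, mul_mk, mul_mk]; rfl

/-- Letters act on `D` by `f` (inverse `fi`); applying the letter `s` at `x` reads `lab s x`. -/
structure Cov (D E : Type*) where
  f : Bool → D → D
  fi : Bool → D → D
  lab : Bool → D → List (E × Bool)

variable {D E : Type*} (C : Cov D E)

/-- end point of the lift -/
def cfin : List (Bool × Bool) → D → D
  | [], x => x
  | (s, true) :: w, x => cfin w (C.f s x)
  | (s, false) :: w, x => cfin w (C.fi s x)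

/-- edge word of the lift -/
def cpath : List (Bool × Bool) → D → List (E × Bool)
  | [], _ => []
  | (s, true) :: w, x => C.lab s x ++ cpath w (C.f s x)
  | (s, false) :: w, x => invRev (C.lab s (C.fi s x)) ++ cpath w (C.fi s x)

variable {H : Type*} [Group H] (π : FreeGroup E →* H)

def cgen (h1 : ∀ s x, C.fi s (C.f s x) = x) (h2 : ∀ s x, C.f s (C.fi s x) = x) (s : Bool) :
    Equiv.Perm (D × H) where
  toFun z := (C.f s z.1, z.2 * π (mk (C.lab s z.1)))
  invFun z := (C.fi s z.1, z.2 * (π (mk (C.lab s (C.fi s z.1))))⁻¹)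
  left_inv z := by simp [h1]
  right_inv z := by simp [h2]

theorem cact (h1 : ∀ s x, C.fi s (C.f s x) = x) (h2 : ∀ s x, C.f s (C.fi s x) = x)
    (w : List (Bool × Bool)) : ∀ (x : D) (h : H),
    (FreeGroup.lift (fun s => MulOpposite.op (cgen C π h1 h2 s)) (mk w)).unop (x, h) =
      (cfin C w x, h * π (mk (cpath C w x))) := by
  induction w with
  | nil => intro x h; simp [cfin, cpath, ← one_eq_mk]
  | cons p w ih =>
    intro x h
    obtain ⟨s, e⟩ := p
    have hc : mk ((s, e) :: w) = mk [(s, e)] * mk w := by rw [mul_mk]; rfl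
    rw [hc, _root_.map_mul, MulOpposite.unop_mul, Equiv.Perm.mul_apply]
    cases e
    · have : (mk [(s, false)] : FreeGroup Bool) = (FreeGroup.of s)⁻¹ := rfl
      rw [this, _root_.map_inv, lift_apply_of, MulOpposite.unop_inv, MulOpposite.unop_op]
      have h3 : (cgen C π h1 h2 s)⁻¹ (x, h) =
          (C.fi s x, h * (π (mk (C.lab s (C.fi s x))))⁻¹) := rfl
      rw [h3, ih, cfin, cpath, ← mul_mk, ← inv_mk, _root_.map_mul, _root_.map_inv, mul_assoc]
    · have : (mk [(s, true)] : FreeGroup Bool) = FreeGroup.of s := rfl
      rw [this, lift_apply_of, MulOpposite.unop_op]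
      have h3 : (cgen C π h1 h2 s) (x, h) = (C.f s x, h * π (mk (C.lab s x))) := rfl
      rw [h3, ih, cfin, cpath, ← mul_mk, _root_.map_mul, mul_assoc]

/-- the six relators: `a²`, `[a,a^b]` and the four commutators of weight `8` -/
def rels : List (List (Bool × Bool)) :=
  [[(false, true), (false, true)],
   [(false, false), (true, false), (false, false), (true, true), (false, true), (true, false),
     (false, true), (true, true)],
   wd (tT * tQ), wd (tS * tU * tU), wd (tV * tU), wd (tW * tB)]

/-- the word of `[b,a,b]^8` -/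
def wZ : List (Bool × Bool) :=
  wd tQ ++ wd tQ ++ wd tQ ++ wd tQ ++ wd tQ ++ wd tQ ++ wd tQ ++ wd tQ

theorem bridge_cov (h1 : ∀ s x, C.fi s (C.f s x) = x) (h2 : ∀ s x, C.f s (C.fi s x) = x)
    (hrel : ∀ r ∈ rels, ∀ x, cfin C r x = x ∧ π (mk (cpath C r x)) = 1)
    (x₀ : D) (hz : π (mk (cpath C wZ x₀)) ≠ 1)
    {X : Type*} [Nontrivial X] (lt : FreeMagma X → FreeMagma X → Prop) (hlt : IsHallOrder lt) :
    NB lt 8 < (⊤ : Subgroup (FreeGroup X)).lowerCentralSeries (8 - 1) := by
  let g : Bool → (Equiv.Perm (D × H))ᵐᵒᵖ := fun s => MulOpposite.op (cgen C π h1 h2 s)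
  have hr : ∀ r ∈ rels, FreeGroup.lift g (mk r) = 1 := by
    intro r hr
    apply MulOpposite.unop_injective
    ext1 ⟨x, h⟩
    rw [cact C π h1 h2, (hrel r hr x).1, (hrel r hr x).2, mul_one]; rfl
  have hg : two (g false) (g true) = g := by funext s; cases s <;> rfl
  have hw : ∀ t : FreeMagma Bool, ev (two (g false) (g true)) t = FreeGroup.lift g (mk (wd t)) := by
    intro t; rw [mk_wd, hom_ev, hg]; simp
  refine bridge (g false) (g true) ?_ ?_ ?_ ?_ ?_ ?_ ?_ lt hlt
  · simpa using hr [(false, true), (false, true)] (by simp [rels])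
  · have := hr [(false, false), (true, false), (false, false), (true, true), (false, true),
      (true, false), (false, true), (true, true)] (by simp [rels])
    simpa [cm, mul_assoc] using this
  · rw [hw]; exact hr _ (by simp [rels])
  · rw [hw]; exact hr _ (by simp [rels])
  · rw [hw]; exact hr _ (by simp [rels])
  · rw [hw]; exact hr _ (by simp [rels])
  · intro h
    apply hz
    have h3 : FreeGroup.lift g (mk wZ) = 1 := by
      rw [← h, hw, ← map_pow, wZ]
      simp only [← mul_mk, pow_succ, pow_zero, one_mul]
    have h4 := cact C π h1 h2 wZ x₀ 1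
    generalize wZ = z at h3 h4 ⊢
    rw [h3, one_mul] at h4
    exact (congrArg Prod.snd h4).symm

/-- the normal closure of a list of words -/
def NC (cells : List (List (E × Bool))) : Subgroup (FreeGroup E) :=
  Subgroup.normalClosure {g | ∃ r ∈ cells, mk r = g}

instance (cells : List (List (E × Bool))) : (NC cells).Normal :=
  Subgroup.normalClosure_normal

/-- the word `∏ c r^{±1} c⁻¹` of a certificate -/
def certW (cells : List (List (E × Bool))) :
    List (List (E × Bool) × ℕ × Bool) → List (E × Bool)
  | [] => []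
  | (c, i, e) :: l =>
      c ++ (if e then cells.getD i [] else invRev (cells.getD i [])) ++ invRev c ++ certW cells l

theorem certW_mem (cells : List (List (E × Bool))) (l : List (List (E × Bool) × ℕ × Bool)) :
    mk (certW cells l) ∈ NC cells := by
  induction l with
  | nil => exact one_mem _
  | cons p l ih =>
    obtain ⟨c, i, e⟩ := p
    have h0 : mk (cells.getD i []) ∈ NC cells := by
      by_cases hi : i < cells.length
      · apply Subgroup.subset_normalClosure
        exact ⟨cells.getD i [], by rw [List.getD_eq_getElem _ _ hi]; exact List.getElem_mem hi, rfl⟩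
      · rw [List.getD_eq_default _ _ (by omega)]; exact one_mem _
    have h1 : mk (if e then cells.getD i [] else invRev (cells.getD i [])) ∈ NC cells := by
      cases e
      · simpa [← inv_mk] using h0
      · simpa using h0
    rw [certW, ← mul_mk, ← mul_mk, ← mul_mk, ← inv_mk]
    exact mul_mem (Subgroup.Normal.conj_mem inferInstance _ h1 _) ih

theorem mem_of_cert [DecidableEq E] (cells : List (List (E × Bool))) (w : List (E × Bool))
    (l : List (List (E × Bool) × ℕ × Bool)) (h : reduce w = reduce (certW cells l)) :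
    mk w ∈ NC cells := by
  rw [← reduce.self, h, reduce.self]; exact certW_mem cells l

/-- strip mutually inverse end letters -/
def cyc [DecidableEq E] : ℕ → List (E × Bool) → List (E × Bool)
  | 0, w => w
  | _ + 1, [] => []
  | n + 1, p :: w => if w.getLast? = some (p.1, !p.2) then cyc n w.dropLast else p :: w

theorem cyc_conj [DecidableEq E] (n : ℕ) : ∀ w : List (E × Bool), IsConj (mk (cyc n w)) (mk w) := by
  induction n with
  | zero => intro w; exact IsConj.refl _
  | succ n ih =>
    intro w
    rcases w with _ | ⟨p, w⟩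
    · exact IsConj.refl _
    · rw [cyc]
      split_ifs with h
      · refine (ih _).trans ?_
        have hw : w.dropLast ++ [(p.1, !p.2)] = w := List.dropLast_append_getLast? _ h
        rw [isConj_iff]
        refine ⟨mk [p], ?_⟩
        rw [inv_mk, mul_mk, mul_mk]
        congr 1
        conv_rhs => rw [← hw]
        simp [invRev]
      · exact IsConj.refl _

theorem rotate_conj (w : List (E × Bool)) (i : ℕ) : IsConj (mk w) (mk (w.rotate i)) := by
  rw [List.rotate_eq_drop_append_take_mod, isConj_iff]
  refine ⟨(mk (w.take (i % w.length)))⁻¹, ?_⟩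
  rw [← mul_mk]
  conv_lhs => rw [← List.take_append_drop (i % w.length) w, ← mul_mk]
  simp only [List.take_append_drop]
  group

/-- `w` is freely conjugate to the empty word or to a cell or the inverse of a cell -/
def okW [DecidableEq E] (cells : List (List (E × Bool))) (w : List (E × Bool)) : Bool :=
  let v := cyc w.length (reduce w)
  v.isEmpty || cells.any fun r => r.length == v.length &&
    (List.range r.length).any fun i => v == r.rotate i || v == (invRev r).rotate i

theorem mem_of_okW [DecidableEq E] (cells : List (List (E × Bool))) (w : List (E × Bool))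
    (h : okW cells w = true) : mk w ∈ NC cells := by
  have hc : ∀ x y : FreeGroup E, IsConj x y → x ∈ NC cells → y ∈ NC cells := by
    intro x y hxy hx
    obtain ⟨c, rfl⟩ := isConj_iff.1 hxy
    exact Subgroup.Normal.conj_mem inferInstance _ hx _
  rw [← reduce.self]
  apply hc _ _ (cyc_conj w.length (reduce w))
  simp only [okW, Bool.or_eq_true, List.isEmpty_iff, List.any_eq_true, Bool.and_eq_true,
    beq_iff_eq] at h
  rcases h with h | ⟨r, hr, -, i, -, h | h⟩
  · rw [h]; exact one_mem _
  · rw [h]
    exact hc _ _ (rotate_conj r i) (Subgroup.subset_normalClosure ⟨r, hr, rfl⟩)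
  · rw [h]
    refine hc _ _ (rotate_conj _ i) ?_
    rw [← inv_mk]
    exact inv_mem (Subgroup.subset_normalClosure ⟨r, hr, rfl⟩)

/-- Final form: the lifts of the relators lie in the normal closure of the cells, the lift of
`[b,a,b]^8` does not. -/
theorem bridge_cells (h1 : ∀ s x, C.fi s (C.f s x) = x) (h2 : ∀ s x, C.f s (C.fi s x) = x)
    (cells : List (List (E × Bool)))
    (hrel : ∀ r ∈ rels, ∀ x, cfin C r x = x ∧ mk (cpath C r x) ∈ NC cells)
    (x₀ : D) (hz : mk (cpath C wZ x₀) ∉ NC cells)
    {X : Type*} [Nontrivial X] (lt : FreeMagma X → FreeMagma X → Prop) (hlt : IsHallOrder lt) :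
    NB lt 8 < (⊤ : Subgroup (FreeGroup X)).lowerCentralSeries (8 - 1) :=
  bridge_cov C (QuotientGroup.mk' (NC cells)) h1 h2
    (fun r hr x => ⟨(hrel r hr x).1, (QuotientGroup.eq_one_iff _).2 (hrel r hr x).2⟩) x₀
    (fun h => hz ((QuotientGroup.eq_one_iff _).1 h)) lt hlt

end Pool.Agent.Lib.Sims
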