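import Pool.Agent.Lib.Sims.Cover

/-!
The cover of index `8`: four edges, `24` cells.
-/

namespace Pool.Agent.Lib.Sims

open FreeGroup

def fD : Bool → Fin 8 → Fin 8
  | false => ![2, 3, 0, 1, 5, 4, 7, 6]
  | true => ![4, 5, 6, 7, 0, 1, 2, 3]

def lD : Bool → Fin 8 → List (Fin 4 × Bool)
  | false => fun _ => []
  | true => fun x => [((![0, 1, 0, 1, 2, 2, 3, 3] : Fin 8 → Fin 4) x, true)]

/-- the cover given by the dihedral group of order `8` -/
def covD : Cov (Fin 8) (Fin 4) := ⟨fD, fD, lD⟩

def cellsD : List (List (Fin 4 × Bool)) := [
  [(0,true), (1,false), (0,true), (1,false), (0,true), (1,false), (2,false), (3,true), (1,true), (0,false), (2,false), (3,true), (0,true), (1,false), (0,true), (1,false), (0,true), (1,false), (2,false), (3,true), (1,true), (0,false), (2,false), (3,true)],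
  [(0,true), (1,false), (0,true), (1,false), (0,true), (1,false), (3,false), (2,true), (1,true), (0,false), (3,false), (2,true), (0,true), (1,false), (0,true), (1,false), (0,true), (1,false), (3,false), (2,true), (1,true), (0,false), (3,false), (2,true)],
  [(0,true), (2,true), (3,false), (1,false), (0,true), (3,true), (2,false), (3,true), (2,false), (3,true), (2,false), (1,false), (0,true), (2,true), (3,false), (1,false), (0,true), (3,true), (2,false), (3,true), (2,false), (3,true), (2,false), (1,false)],
  [(0,true), (2,true), (3,false), (2,true), (3,false), (2,true), (3,false), (1,false), (0,true), (3,true), (2,false), (1,false), (0,true), (2,true), (3,false), (2,true), (3,false), (2,true), (3,false), (1,false), (0,true), (3,true), (2,false), (1,false)],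
  [(0,true), (1,false), (0,true), (2,true), (3,false), (1,false), (0,true), (2,true), (3,false), (0,false), (1,true), (3,true), (2,false), (0,false), (1,true), (0,false), (2,false), (3,true), (0,true), (3,true), (2,false), (0,false), (3,false), (2,true)],
  [(0,true), (1,false), (0,true), (3,true), (2,false), (1,false), (0,true), (2,true), (3,false), (0,false), (1,true), (2,true), (3,false), (0,false), (1,true), (0,false), (3,false), (2,true), (0,true), (3,true), (2,false), (0,false), (2,false), (3,true)],
  [(0,true), (1,false), (2,false), (0,false), (1,true), (2,true), (3,false), (2,true), (1,true), (0,false), (3,false), (2,true), (1,true), (0,false), (2,false), (3,true), (0,true), (1,false), (2,false), (3,true), (2,false), (1,false), (0,true), (2,true)],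
  [(0,true), (1,false), (2,false), (1,false), (0,true), (2,true), (3,false), (2,true), (0,true), (1,false), (3,false), (2,true), (1,true), (0,false), (2,false), (3,true), (1,true), (0,false), (2,false), (3,true), (2,false), (0,false), (1,true), (2,true)],
  [(0,true), (1,false), (2,false), (3,true), (0,true), (1,false), (3,false), (2,true), (1,true), (0,false), (3,false), (2,true), (3,false), (0,false), (1,true), (3,true), (1,true), (0,false), (3,false), (1,false), (0,true), (3,true), (2,false), (3,true)],
  [(0,true), (1,false), (2,false), (3,true), (1,true), (2,true), (3,false), (1,false), (3,false), (2,true), (1,true), (0,false), (1,true), (2,true), (3,false), (0,false), (1,true), (3,true), (2,false), (1,false), (0,true), (3,true), (2,false), (1,false)],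
  [(0,true), (1,false), (3,false), (0,false), (1,true), (3,true), (2,false), (3,true), (1,true), (0,false), (2,false), (3,true), (1,true), (0,false), (3,false), (2,true), (0,true), (1,false), (3,false), (2,true), (3,false), (1,false), (0,true), (3,true)],
  [(0,true), (1,false), (3,false), (2,true), (1,true), (2,true), (3,false), (1,false), (2,false), (3,true), (1,true), (0,false), (1,true), (3,true), (2,false), (0,false), (1,true), (3,true), (2,false), (1,false), (0,true), (2,true), (3,false), (1,false)],
  [(0,true), (1,false), (0,true), (2,true), (3,false), (1,false), (0,true), (2,true), (0,true), (1,false), (3,false), (2,true), (3,false), (1,false), (0,true), (3,true), (0,true), (1,false), (2,false), (1,false), (0,true), (2,true), (3,false), (2,true), (0,true), (1,false), (3,false), (1,false), (0,true), (2,true), (3,false), (1,false), (0,true), (1,false), (3,false), (2,true), (1,true), (2,true), (1,true), (0,false), (3,false), (0,false), (3,false), (2,true)],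
  [(0,true), (1,false), (0,true), (2,true), (3,false), (1,false), (3,false), (2,true), (0,true), (1,false), (3,false), (2,true), (3,false), (1,false), (0,true), (3,true), (0,true), (3,true), (2,false), (1,false), (2,false), (1,false), (0,true), (2,true), (3,false), (2,true), (0,true), (1,false), (3,false), (2,true), (0,true), (2,true), (3,false), (1,false), (0,true), (1,false), (3,false), (2,true), (1,true), (2,true), (3,false), (0,false), (3,false), (2,true)],
  [(0,true), (1,false), (0,true), (3,true), (2,false), (1,false), (0,true), (3,true), (0,true), (1,false), (2,false), (3,true), (2,false), (1,false), (0,true), (2,true), (0,true), (1,false), (3,false), (1,false), (0,true), (3,true), (2,false), (3,true), (0,true), (1,false), (2,false), (1,false), (0,true), (3,true), (2,false), (1,false), (0,true), (1,false), (2,false), (3,true), (1,true), (3,true), (1,true), (0,false), (2,false), (0,false), (2,false), (3,true)],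
  [(0,true), (1,false), (0,true), (3,true), (2,false), (1,false), (2,false), (3,true), (0,true), (1,false), (2,false), (3,true), (2,false), (1,false), (0,true), (2,true), (0,true), (2,true), (3,false), (1,false), (3,false), (1,false), (0,true), (3,true), (2,false), (3,true), (0,true), (1,false), (2,false), (3,true), (0,true), (3,true), (2,false), (1,false), (0,true), (1,false), (2,false), (3,true), (1,true), (3,true), (2,false), (0,false), (2,false), (3,true)],
  [(0,true), (1,false), (0,true), (2,true), (3,false), (1,false), (0,true), (2,true), (0,true), (1,false), (3,false), (2,true), (3,false), (1,false), (0,true), (2,true), (0,true), (1,false), (0,true), (2,true), (3,false), (1,false), (3,false), (2,true), (0,true), (1,false), (3,false), (2,true), (3,false), (1,false), (0,true), (2,true), (0,true), (1,false), (0,true), (2,true), (3,false), (1,false), (0,true), (2,true), (0,true), (1,false), (3,false), (2,true), (3,false), (1,false), (3,false), (2,true), (0,true), (1,false), (0,true), (2,true), (3,false), (1,false), (3,false), (2,true), (0,true), (1,false), (3,false), (2,true), (3,false), (1,false), (3,false), (2,true)],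
  [(0,true), (1,false), (0,true), (2,true), (3,false), (1,false), (0,true), (2,true), (0,true), (1,false), (3,false), (2,true), (3,false), (1,false), (0,true), (2,true), (0,true), (1,false), (0,true), (2,true), (3,false), (1,false), (3,false), (2,true), (0,true), (1,false), (3,false), (2,true), (3,false), (1,false), (3,false), (2,true), (0,true), (1,false), (0,true), (2,true), (3,false), (1,false), (0,true), (2,true), (0,true), (1,false), (3,false), (2,true), (3,false), (1,false), (3,false), (2,true), (0,true), (1,false), (0,true), (2,true), (3,false), (1,false), (3,false), (2,true), (0,true), (1,false), (3,false), (2,true), (3,false), (1,false), (0,true), (2,true)],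
  [(0,true), (1,false), (0,true), (3,true), (2,false), (1,false), (0,true), (3,true), (0,true), (1,false), (2,false), (3,true), (2,false), (1,false), (0,true), (3,true), (0,true), (1,false), (0,true), (3,true), (2,false), (1,false), (2,false), (3,true), (0,true), (1,false), (2,false), (3,true), (2,false), (1,false), (0,true), (3,true), (0,true), (1,false), (0,true), (3,true), (2,false), (1,false), (0,true), (3,true), (0,true), (1,false), (2,false), (3,true), (2,false), (1,false), (2,false), (3,true), (0,true), (1,false), (0,true), (3,true), (2,false), (1,false), (2,false), (3,true), (0,true), (1,false), (2,false), (3,true), (2,false), (1,false), (2,false), (3,true)],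
  [(0,true), (1,false), (0,true), (3,true), (2,false), (1,false), (0,true), (3,true), (0,true), (1,false), (2,false), (3,true), (2,false), (1,false), (0,true), (3,true), (0,true), (1,false), (0,true), (3,true), (2,false), (1,false), (2,false), (3,true), (0,true), (1,false), (2,false), (3,true), (2,false), (1,false), (2,false), (3,true), (0,true), (1,false), (0,true), (3,true), (2,false), (1,false), (0,true), (3,true), (0,true), (1,false), (2,false), (3,true), (2,false), (1,false), (2,false), (3,true), (0,true), (1,false), (0,true), (3,true), (2,false), (1,false), (2,false), (3,true), (0,true), (1,false), (2,false), (3,true), (2,false), (1,false), (0,true), (3,true)],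
  [(0,true), (1,false), (2,false), (1,false), (0,true), (3,true), (2,false), (1,false), (0,true), (1,false), (2,false), (1,false), (0,true), (3,true), (2,false), (3,true), (0,true), (1,false), (2,false), (3,true), (0,true), (3,true), (2,false), (1,false), (0,true), (1,false), (2,false), (1,false), (0,true), (3,true), (2,false), (3,true), (0,true), (1,false), (2,false), (1,false), (0,true), (3,true), (2,false), (1,false), (0,true), (1,false), (2,false), (3,true), (0,true), (3,true), (2,false), (3,true), (0,true), (1,false), (2,false), (3,true), (0,true), (3,true), (2,false), (1,false), (0,true), (1,false), (2,false), (3,true), (0,true), (3,true), (2,false), (3,true)],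
  [(0,true), (1,false), (2,false), (1,false), (0,true), (3,true), (2,false), (1,false), (0,true), (1,false), (2,false), (1,false), (0,true), (3,true), (2,false), (3,true), (0,true), (1,false), (2,false), (3,true), (0,true), (3,true), (2,false), (1,false), (0,true), (1,false), (2,false), (3,true), (0,true), (3,true), (2,false), (3,true), (0,true), (1,false), (2,false), (1,false), (0,true), (3,true), (2,false), (1,false), (0,true), (1,false), (2,false), (3,true), (0,true), (3,true), (2,false), (3,true), (0,true), (1,false), (2,false), (3,true), (0,true), (3,true), (2,false), (1,false), (0,true), (1,false), (2,false), (1,false), (0,true), (3,true), (2,false), (3,true)],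
  [(0,true), (1,false), (3,false), (1,false), (0,true), (2,true), (3,false), (1,false), (0,true), (1,false), (3,false), (1,false), (0,true), (2,true), (3,false), (2,true), (0,true), (1,false), (3,false), (2,true), (0,true), (2,true), (3,false), (1,false), (0,true), (1,false), (3,false), (1,false), (0,true), (2,true), (3,false), (2,true), (0,true), (1,false), (3,false), (1,false), (0,true), (2,true), (3,false), (1,false), (0,true), (1,false), (3,false), (2,true), (0,true), (2,true), (3,false), (2,true), (0,true), (1,false), (3,false), (2,true), (0,true), (2,true), (3,false), (1,false), (0,true), (1,false), (3,false), (2,true), (0,true), (2,true), (3,false), (2,true)],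
  [(0,true), (1,false), (3,false), (1,false), (0,true), (2,true), (3,false), (1,false), (0,true), (1,false), (3,false), (1,false), (0,true), (2,true), (3,false), (2,true), (0,true), (1,false), (3,false), (2,true), (0,true), (2,true), (3,false), (1,false), (0,true), (1,false), (3,false), (2,true), (0,true), (2,true), (3,false), (2,true), (0,true), (1,false), (3,false), (1,false), (0,true), (2,true), (3,false), (1,false), (0,true), (1,false), (3,false), (2,true), (0,true), (2,true), (3,false), (2,true), (0,true), (1,false), (3,false), (2,true), (0,true), (2,true), (3,false), (1,false), (0,true), (1,false), (3,false), (1,false), (0,true), (2,true), (3,false), (2,true)]]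

theorem covD_inv : ∀ s x, covD.fi s (covD.f s x) = x := by decide

theorem covD_rel : ∀ r ∈ rels, ∀ x, cfin covD r x = x ∧ okW cellsD (cpath covD r x) = true := by
  decide +kernel

/-- the lift of `[b,a,b]^8`, cyclically reduced -/
def zD : List (Fin 4 × Bool) := (List.replicate 8 [(0, true), (1, false)]).flatten

theorem covD_z : cyc 100 (reduce (cpath covD wZ 6)) = zD.rotate 1 := by decide +kernel

/-- If a normal subgroup of the free group on the four edges contains the `24` cells and not `zD`,
then `N_8` is a proper subgroup of `γ_8`. -/
theorem sims_of_not_mem (N : Subgroup (FreeGroup (Fin 4))) [N.Normal]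
    (hc : ∀ r ∈ cellsD, mk r ∈ N) (hz : mk zD ∉ N)
    {X : Type*} [Nontrivial X] (lt : FreeMagma X → FreeMagma X → Prop)
    (hlt : MP_841f14_al.IsHallOrder lt) :
    NB lt 8 < (⊤ : Subgroup (FreeGroup X)).lowerCentralSeries (8 - 1) := by
  have hle : NC cellsD ≤ N := by
    apply Subgroup.normalClosure_le_normal
    rintro g ⟨r, hr, rfl⟩
    exact hc r hr
  refine bridge_cells covD covD_inv covD_inv cellsD
    (fun r hr x => ⟨(covD_rel r hr x).1, mem_of_okW _ _ (covD_rel r hr x).2⟩) 6 ?_ lt hlt
  intro h
  apply hz
  have h1 : IsConj (mk zD) (mk (cpath covD wZ 6)) := by
    refine (rotate_conj zD 1).trans ?_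
    rw [← covD_z]
    refine (cyc_conj _ _).trans ?_
    rw [reduce.self]
  obtain ⟨c, hc'⟩ := isConj_iff.1 h1.symm
  rw [← hc']
  exact Subgroup.Normal.conj_mem inferInstance _ (hle h) _

end Pool.Agent.Lib.Sims
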